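import Pool.Agent.H93.BR.AM1
import Pool.Agent.H86.AR.Base

/-! # AC2: all averages commute -/

set_option autoImplicit false

namespace Pool.Agent.H93.BR

open MeasureTheory Set FourierTransform Pool.Agent.H83.LS Pool.Agent.H54.LS Pool.Agent.H83.AR
  Pool.Agent.H84.BR Pool.Agent.H93.AR Pool.Agent.H86.AR
open scoped ENNReal NNReal SchwartzMap

/-- direction of a vector -/
noncomputable def dr {n : ℕ} (y : EE n) : EE n := ‖y‖⁻¹ • y

theorem dr_cases {n : ℕ} (y : EE n) : dr y = 0 ∨ ‖dr y‖ = 1 := by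
  rcases eq_or_ne ‖y‖ 0 with h | h
  · left
    rw [dr, h, inv_zero, zero_smul]
  · right
    rw [dr, norm_smul, norm_inv, norm_norm, inv_mul_cancel₀ h]

theorem dr_smul {n : ℕ} {r : ℝ} (hr : 0 < r) (w : Sp n) : dr (r • (w : EE n)) = (w : EE n) := by
  rw [dr, norm_smul, sp_norm, mul_one, Real.norm_of_nonneg hr.le, smul_smul,
    inv_mul_cancel₀ hr.ne', one_smul]

theorem norm_smul_sp {n : ℕ} {r : ℝ} (hr : 0 ≤ r) (w : Sp n) : ‖r • (w : EE n)‖ = r := by
  rw [norm_smul, sp_norm, mul_one, Real.norm_of_nonneg hr]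

theorem A2_def (a b : ℕ) (L : ℝ) (f : EE (a + b) → ℂ) (x : EE (a + b)) :
    A2 a b L f x = ∫ w : Sp b, ((zk b L (dr (p2 a b x)) (w : EE b) : ℝ) : ℂ) *
      f (jm a b (p1 a b x) (‖p2 a b x‖ • (w : EE b))) ∂(sg b) := rfl

theorem A1_def (a b : ℕ) (L : ℝ) (f : EE (a + b) → ℂ) (x : EE (a + b)) :
    A1 a b L f x = ∫ w : Sp a, ((zk a L (dr (p1 a b x)) (w : EE a) : ℝ) : ℂ) *
      f (jm a b (‖p1 a b x‖ • (w : EE a)) (p2 a b x)) ∂(sg a) := rfl

theorem A2_zero (hJB : T_JB) (hZN : T_ZN) (hZB : T_ZB) {a b : ℕ} {L : ℝ} (hb : 1 ≤ b)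
    (hL : 1 ≤ L) (f : EE (a + b) → ℂ) {x : EE (a + b)} (hx : ‖p2 a b x‖ = 0) :
    A2 a b L f x = f x := by
  have hp : p2 a b x = 0 := norm_eq_zero.1 hx
  have hd : dr (p2 a b x) = 0 := by
    rw [dr, hp, smul_zero]
  have hjo : jm a b (p1 a b x) 0 = x := by
    conv_rhs => rw [← (hJB a b).2.2.2.2.2.1 x, hp]
  rw [A2_def, hd, hx]
  simp only [zero_smul, hjo]
  rw [integral_mul_const, zk_integral_c hZN hZB hb hL (Or.inl rfl), one_mul]

theorem jm_p1 (hJB : T_JB) {a b : ℕ} (y : EE a) (z : EE b) : p1 a b (jm a b y z) = y :=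
  ((hJB a b).2.2.2.2.1 y z).1

theorem jm_p2 (hJB : T_JB) {a b : ℕ} (y : EE a) (z : EE b) : p2 a b (jm a b y z) = z :=
  ((hJB a b).2.2.2.2.1 y z).2

theorem A2_jm (hJB : T_JB) {a b : ℕ} (L : ℝ) (f : EE (a + b) → ℂ) {r : ℝ} (hr : 0 < r)
    (w : Sp b) (y : EE a) :
    A2 a b L f (jm a b y (r • (w : EE b))) =
      ∫ w' : Sp b, ((zk b L (w : EE b) (w' : EE b) : ℝ) : ℂ) *
      f (jm a b y (r • (w' : EE b))) ∂(sg b) := by
  rw [A2_def, jm_p1 hJB, jm_p2 hJB, dr_smul hr, norm_smul_sp hr.le]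

theorem A2_A2 (hJB : T_JB) (hZB : T_ZB) {a b : ℕ} {L L' : ℝ} (hb : 1 ≤ b) (hL : 1 ≤ L)
    (hL' : 1 ≤ L') (f : EE (a + b) → ℂ) (hf : Measurable f) {A : ℝ} (hA : ∀ x, ‖f x‖ ≤ A)
    {x : EE (a + b)} (hx : 0 < ‖p2 a b x‖) (hdx : ‖dr (p2 a b x)‖ = 1) :
    A2 a b L (A2 a b L' f) x = ∫ w' : Sp b,
      (∫ w : Sp b, ((zk b L (dr (p2 a b x)) (w : EE b) : ℝ) : ℂ) *
      ((zk b L' (w : EE b) (w' : EE b) : ℝ) : ℂ) ∂(sg b)) *
        f (jm a b (p1 a b x) (‖p2 a b x‖ • (w' : EE b))) ∂(sg b) := by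
  obtain ⟨C, hC⟩ := hZB b hb
  have hb1 := (hC L hL).2.2.2.1
  have hb2 := (hC L' hL').2.2.2.1
  have hn1 := (hC L hL).2.2.1
  have hn2 := (hC L' hL').2.2.1
  rw [A2_def]
  have e1 : ∀ w : Sp b, ((zk b L (dr (p2 a b x)) (w : EE b) : ℝ) : ℂ) *
      A2 a b L' f (jm a b (p1 a b x) (‖p2 a b x‖ • (w : EE b))) =
      ∫ w' : Sp b, ((zk b L (dr (p2 a b x)) (w : EE b) : ℝ) : ℂ) *
        ((zk b L' (w : EE b) (w' : EE b) : ℝ) : ℂ) *
        f (jm a b (p1 a b x) (‖p2 a b x‖ • (w' : EE b))) ∂(sg b) := by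
    intro w
    rw [A2_jm hJB L' f hx, ← integral_const_mul]
    apply integral_congr_ae
    exact Filter.Eventually.of_forall fun w' => by simp only []; ring
  simp only [e1]
  have hm1 : Measurable fun q : Sp b × Sp b => zk b L (dr (p2 a b x)) (q.1 : EE b) :=
    (zk_meas' hZB hb hL (dr (p2 a b x))).comp measurable_fst
  have hm2 : Measurable fun q : Sp b × Sp b => zk b L' (q.1 : EE b) (q.2 : EE b) := by
    have h1 : Measurable fun q : Sp b × Sp b => ((q.1 : EE b), (q.2 : EE b)) :=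
      (measurable_subtype_coe.comp measurable_fst).prodMk
        (measurable_subtype_coe.comp measurable_snd)
    have h2 := (zk_meas hZB hb hL').comp h1
    exact h2
  have hm3 : Measurable fun q : Sp b × Sp b =>
      f (jm a b (p1 a b x) (‖p2 a b x‖ • (q.2 : EE b))) := by
    have h0 : Measurable fun q : Sp b × Sp b => ‖p2 a b x‖ • (q.2 : EE b) :=
      (measurable_const_smul _).comp (measurable_subtype_coe.comp measurable_snd)
    have h1 : Measurable fun q : Sp b × Sp b => (p1 a b x, ‖p2 a b x‖ • (q.2 : EE b)) :=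
      measurable_const.prodMk h0
    exact hf.comp ((hJB a b).2.1.measurable.comp h1)
  rw [integral_integral_swap]
  · apply integral_congr_ae
    exact Filter.Eventually.of_forall fun w' => by simp only [integral_mul_const]
  · refine Integrable.of_bound (C := C * L ^ (b - 1) * (C * L' ^ (b - 1)) * A) ?_ ?_
    · have h4 : Measurable fun q : Sp b × Sp b =>
          ((zk b L (dr (p2 a b x)) (q.1 : EE b) : ℝ) : ℂ) *
          ((zk b L' (q.1 : EE b) (q.2 : EE b) : ℝ) : ℂ) *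
          f (jm a b (p1 a b x) (‖p2 a b x‖ • (q.2 : EE b))) :=
        ((Complex.measurable_ofReal.comp hm1).mul (Complex.measurable_ofReal.comp hm2)).mul hm3
      exact h4.aestronglyMeasurable
    · refine Filter.Eventually.of_forall fun q => ?_
      simp only [Function.uncurry, norm_mul, Complex.norm_real, Real.norm_eq_abs,
        abs_of_nonneg (hn1 _ _), abs_of_nonneg (hn2 _ _)]
      have a1 := hb1 (dr (p2 a b x)) (q.1 : EE b) hdx (sp_norm q.1)
      have a2 := hb2 (q.1 : EE b) (q.2 : EE b) (sp_norm q.1) (sp_norm q.2)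
      have a3 := hn1 (dr (p2 a b x)) (q.1 : EE b)
      have a4 := hn2 (q.1 : EE b) (q.2 : EE b)
      exact mul_le_mul (mul_le_mul a1 a2 a4 (a3.trans a1)) (hA _) (norm_nonneg _)
        (mul_nonneg (a3.trans a1) (a4.trans a2))

theorem A2_comm (hJB : T_JB) (hZC : T_ZC) (hZB : T_ZB) (hZN : T_ZN) {a b : ℕ} {L L' : ℝ}
    (hb : 1 ≤ b) (hL : 1 ≤ L) (hL' : 1 ≤ L') (f : EE (a + b) → ℂ) (hf : Measurable f)
    (hB : ∃ B : ℝ, ∀ x, ‖f x‖ ≤ B) (x : EE (a + b)) :
    A2 a b L (A2 a b L' f) x = A2 a b L' (A2 a b L f) x := by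
  obtain ⟨A, hA⟩ := hB
  rcases (norm_nonneg (p2 a b x)).eq_or_lt with h0 | hx
  · rw [A2_zero hJB hZN hZB hb hL _ h0.symm, A2_zero hJB hZN hZB hb hL' _ h0.symm,
      A2_zero hJB hZN hZB hb hL' _ h0.symm, A2_zero hJB hZN hZB hb hL _ h0.symm]
  · have hdx : ‖dr (p2 a b x)‖ = 1 := by
      rcases dr_cases (p2 a b x) with h | h
      · exfalso
        rw [dr, smul_eq_zero, inv_eq_zero] at h
        rcases h with h | h
        · exact hx.ne' h
        · rw [h, norm_zero] at hx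
          exact lt_irrefl _ hx
      · exact h
    rw [A2_A2 hJB hZB hb hL hL' f hf hA hx hdx, A2_A2 hJB hZB hb hL' hL f hf hA hx hdx]
    apply integral_congr_ae
    refine Filter.Eventually.of_forall fun w' => ?_
    obtain ⟨C, hC⟩ := hZB b hb
    have h1 := (hC L hL).2.2.2.2
    have h2 := (hC L' hL').2.2.2.2
    have key := hZC b (fun u v => ((zk b L u v : ℝ) : ℂ)) (fun u v => ((zk b L' u v : ℝ) : ℂ)) hb
      (fun Q u v => ⟨by simp only [h1.2.2 Q u v], by simp only [h2.2.2 Q u v]⟩)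
      (fun u v hu hv => ⟨by simp only [h1.1 u v hu hv], by simp only [h2.1 u v hu hv]⟩)
      (dr (p2 a b x)) (w' : EE b) hdx (sp_norm w')
    simp only [key]

theorem pf_ac2 (hJB : T_JB) (hAS : T_AS) (hZC : T_ZC) (hZB : T_ZB) (hZN : T_ZN) : T_AC2 := by
  intro a b L L' f ha hb hL hL' hf hB x
  refine ⟨A2_comm hJB hZC hZB hZN hb hL hL' f hf hB x, ?_, ?_⟩
  · have hA : ∀ (M : ℝ) (g : EE (a + b) → ℂ), A1 a b M g =
        fun x => A2 b a M (fun y => g (sw b a y)) (sw a b x) := fun M g => by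
      funext x
      exact hAS a b M g x
    have hf' : Measurable (fun y => f (sw b a y)) := hf.comp (sw_cont hJB b a).measurable
    have hB' : ∃ B : ℝ, ∀ y, ‖f (sw b a y)‖ ≤ B := by
      obtain ⟨B, hB⟩ := hB
      exact ⟨B, fun y => hB _⟩
    have key := A2_comm hJB hZC hZB hZN ha hL hL' _ hf' hB' (sw a b x)
    rw [hA L, hA L', hA L', hA L]
    simp only [sw_sw hJB]
    exact key
  · obtain ⟨B, hB⟩ := hB
    rw [A1_def, A2_def]
    have e1 : ∀ w : Sp a, ((zk a L (dr (p1 a b x)) (w : EE a) : ℝ) : ℂ) *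
        A2 a b L' f (jm a b (‖p1 a b x‖ • (w : EE a)) (p2 a b x)) =
        ∫ v : Sp b, ((zk a L (dr (p1 a b x)) (w : EE a) : ℝ) : ℂ) *
          ((zk b L' (dr (p2 a b x)) (v : EE b) : ℝ) : ℂ) *
          f (jm a b (‖p1 a b x‖ • (w : EE a)) (‖p2 a b x‖ • (v : EE b))) ∂(sg b) := by
      intro w
      rw [A2_def, jm_p1 hJB, jm_p2 hJB, ← integral_const_mul]
      apply integral_congr_ae
      exact Filter.Eventually.of_forall fun w' => by simp only []; ring
    have e2 : ∀ v : Sp b, ((zk b L' (dr (p2 a b x)) (v : EE b) : ℝ) : ℂ) *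
        A1 a b L f (jm a b (p1 a b x) (‖p2 a b x‖ • (v : EE b))) =
        ∫ w : Sp a, ((zk a L (dr (p1 a b x)) (w : EE a) : ℝ) : ℂ) *
          ((zk b L' (dr (p2 a b x)) (v : EE b) : ℝ) : ℂ) *
          f (jm a b (‖p1 a b x‖ • (w : EE a)) (‖p2 a b x‖ • (v : EE b))) ∂(sg a) := by
      intro v
      rw [A1_def, jm_p1 hJB, jm_p2 hJB, ← integral_const_mul]
      apply integral_congr_ae
      exact Filter.Eventually.of_forall fun w' => by simp only []; ring
    simp only [e1, e2]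
    apply integral_integral_swap
    have i1 : Integrable (fun w : Sp a => ((zk a L (dr (p1 a b x)) (w : EE a) : ℝ) : ℂ)) (sg a) :=
      (zk_integrable hZN hZB ha hL (dr_cases _)).ofReal
    have i2 : Integrable (fun v : Sp b => ((zk b L' (dr (p2 a b x)) (v : EE b) : ℝ) : ℂ))
        (sg b) := (zk_integrable hZN hZB hb hL' (dr_cases _)).ofReal
    have i3 := i1.mul_prod i2
    have hm3 : Measurable fun q : Sp a × Sp b =>
        f (jm a b (‖p1 a b x‖ • (q.1 : EE a)) (‖p2 a b x‖ • (q.2 : EE b))) := by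
      have h0 : Measurable fun q : Sp a × Sp b => ‖p1 a b x‖ • (q.1 : EE a) :=
        (measurable_const_smul _).comp (measurable_subtype_coe.comp measurable_fst)
      have h1 : Measurable fun q : Sp a × Sp b => ‖p2 a b x‖ • (q.2 : EE b) :=
        (measurable_const_smul _).comp (measurable_subtype_coe.comp measurable_snd)
      exact hf.comp ((hJB a b).2.1.measurable.comp (h0.prodMk h1))
    exact i3.mul_bdd (c := B) hm3.aestronglyMeasurable (Filter.Eventually.of_forall fun q => hB _)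

end Pool.Agent.H93.BR
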