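import Pool.Agent.H93.AR.TargetsE

/-! # AM1: the average in the first block -/

set_option autoImplicit false

namespace Pool.Agent.H93.BR

open MeasureTheory Set FourierTransform Pool.Agent.H83.LS Pool.Agent.H54.LS Pool.Agent.H83.AR
  Pool.Agent.H84.BR Pool.Agent.H93.AR
open scoped ENNReal NNReal SchwartzMap

section swap
variable (hJB : T_JB) (a b : ℕ)
include hJB

theorem sw_cont : Continuous (sw a b) := by
  have h1 := (hJB b a).2.1
  have h2 := (hJB a b).2.2.1
  have h3 := (hJB a b).2.2.2.1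
  exact h1.comp (h3.prodMk h2)

theorem sw_sw (x : EE (a + b)) : sw b a (sw a b x) = x := (hJB a b).2.2.2.2.2.2.2.2.1 x

theorem sw_mp : MeasurePreserving (sw a b) volume volume := (hJB a b).2.2.2.2.2.2.2.1

theorem p1_sw (x : EE (a + b)) : p1 b a (sw a b x) = p2 a b x :=
  ((hJB a b).2.2.2.2.2.2.2.2.2 x).1

theorem p2_sw (x : EE (a + b)) : p2 b a (sw a b x) = p1 a b x :=
  ((hJB a b).2.2.2.2.2.2.2.2.2 x).2

theorem sw_inner (x y : EE (a + b)) : inner ℝ (sw a b x) (sw a b y) = inner ℝ x y := by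
  rw [(hJB b a).2.2.2.2.2.2.1 (sw a b x) (sw a b y), (hJB a b).2.2.2.2.2.2.1 x y,
    p1_sw hJB, p1_sw hJB, p2_sw hJB, p2_sw hJB, add_comm]

theorem sw_emb : MeasurableEmbedding (sw a b) := by
  let h : EE (a + b) ≃ₜ EE (b + a) :=
    { toFun := sw a b
      invFun := sw b a
      left_inv := sw_sw hJB a b
      right_inv := sw_sw hJB b a
      continuous_toFun := sw_cont hJB a b
      continuous_invFun := sw_cont hJB b a }
  exact h.measurableEmbedding

theorem fourier_sw (g : EE (b + a) → ℂ) (ξ : EE (a + b)) :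
    𝓕 (fun x => g (sw a b x)) ξ = 𝓕 g (sw a b ξ) := by
  rw [Real.fourier_eq, Real.fourier_eq]
  have h := (sw_mp hJB a b).integral_comp (sw_emb hJB a b)
    (fun v => Real.fourierChar (-inner ℝ v (sw a b ξ)) • g v)
  rw [← h]
  apply integral_congr_ae
  refine Filter.Eventually.of_forall fun v => ?_
  simp only [sw_inner hJB]

end swap

theorem pf_am1 (hJB : T_JB) (hAS : T_AS) (hAM2 : T_AM2) : T_AM1 := by
  intro a b L ha hL
  obtain ⟨h1, h2, h3, h4, h5, h6, h7⟩ := hAM2 b a L ha hL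
  have hc1 := sw_cont hJB a b
  have hc2 := sw_cont hJB b a
  have hA : ∀ f : EE (a + b) → ℂ, A1 a b L f =
      fun x => A2 b a L (fun y => f (sw b a y)) (sw a b x) := fun f => by
    funext x
    exact hAS a b L f x
  have hm : ∀ f : EE (a + b) → ℂ, Measurable f → Measurable (fun y => f (sw b a y)) :=
    fun f hf => hf.comp hc2.measurable
  refine ⟨?_, ?_, ?_, ?_, ?_, ?_, ?_⟩
  · intro f hf
    rw [hA]
    exact (h1 _ (hm f hf)).comp hc1.measurable
  · intro f B hf hB x
    rw [hA]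
    exact h2 _ B (hm f hf) (fun y => hB _) _
  · intro f p hf hp
    rw [hA]
    have e1 := (sw_mp hJB a b).lintegral_comp
      (f := fun y => ‖A2 b a L (fun y => f (sw b a y)) y‖ₑ ^ p)
      ((h1 _ (hm f hf)).enorm.pow_const p)
    have e2 := (sw_mp hJB b a).lintegral_comp (f := fun y => ‖f y‖ₑ ^ p)
      (hf.enorm.pow_const p)
    rw [e1, ← e2]
    exact h3 _ p (hm f hf) hp
  · intro f hf hi
    rw [hA]
    have i1 : Integrable (fun y => f (sw b a y)) := (sw_mp hJB b a).integrable_comp_of_integrable hi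
    exact (sw_mp hJB a b).integrable_comp_of_integrable (h4 _ (hm f hf) i1)
  · intro f c x
    rw [hA, hA]
    simp only [p1_sw hJB, p2_sw hJB]
    have := h5 (fun y => f (sw b a y)) c (sw a b x)
    simp only [p1_sw hJB, p2_sw hJB] at this
    exact this
  · rintro f g hf hg ⟨B, hB⟩ ⟨B', hB'⟩ x
    rw [hA, hA, hA]
    exact h6 _ _ (hm f hf) (hm g hg) ⟨B, fun y => hB _⟩ ⟨B', fun y => hB' _⟩ _
  · rintro f hf hi ⟨B, hB⟩ ξ
    have i1 : Integrable (fun y => f (sw b a y)) := (sw_mp hJB b a).integrable_comp_of_integrable hi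
    have e1 := h7 _ (hm f hf) i1 ⟨B, fun y => hB _⟩ (sw a b ξ)
    rw [hA (𝓕 f), hA f, fourier_sw hJB a b, e1]
    congr 1
    funext y
    exact fourier_sw hJB b a f y

end Pool.Agent.H93.BR
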