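import Pool.Agent.H93.BR.TRa

/-! # TR: neither block transplanted -/

set_option autoImplicit false

namespace Pool.Agent.H93.BR

open MeasureTheory Set FourierTransform
open Pool.Agent.H83.LS Pool.Agent.H93.AR Pool.Agent.H54.LS Pool.Agent.H83.AR
open Pool.Agent.H84.BR Pool.Agent.H84.B2
open scoped ENNReal NNReal SchwartzMap

/-- the estimate when the second block carries the frequency -/
def KC (a b : ℕ) (p : ℝ) (C : ℝ≥0) : Prop := ∀ (lam L A Lam₁ Lam₂ : ℝ) (c₁ c₂ : ℝ → ℝ)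
  (i j : ℕ) (f : EE (a + b) → ℂ), 1 ≤ L → L ^ 2 ≤ lam → L * Real.sqrt lam ≤ Lam₁ →
  Lam₁ ≤ 4 * lam → L * Real.sqrt lam ≤ Lam₂ → Lam₂ ≤ 4 * lam → lam / 8 ≤ Lam₂ → i ≤ 2 → j ≤ 2 →
  j ≠ 0 →
  (i = 0 → Lam₁ = L * Real.sqrt lam ∧ ∀ s, c₁ s = eta0 (s / Lam₁)) →
  (i ≠ 0 → ∀ s, c₁ s = chi (s / Lam₁)) →
  (∀ s, c₂ s = chi (s / Lam₂)) → BI A f →
  (i = 2 → ∀ x, f x ≠ 0 → Lam₁ * ‖p1 a b x‖ ≤ L ^ 2) →
  (j = 2 → ∀ x, f x ≠ 0 → Lam₂ * ‖p2 a b x‖ ≤ L ^ 2) →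
  ∫⁻ t in Icc (1 : ℝ) 2, ∫⁻ x in {x : EE (a + b) | Rg i L Lam₁ ‖p1 a b x‖ ∧
      Rg j L Lam₂ ‖p2 a b x‖}, ‖MM (mc a b c₁ c₂ lam t) f x‖ₑ ^ p ≤
    C * ENNReal.ofReal (L ^ 2 * A ^ (p - 2)) * ∫⁻ x, ‖f x‖ₑ ^ 2

theorem rpow_half {q : ℝ} (hq : 0 < q) (a n : ℕ) :
    (q ^ 2) ^ (((a : ℝ) + ((n + 1 : ℕ) : ℝ) - 1) / 2) = q ^ (a + n) := by
  rw [← Real.rpow_natCast q 2, ← Real.rpow_mul hq.le, ← Real.rpow_natCast]
  congr 1
  push_cast
  ring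

theorem vol12 : (volume (Icc (1 : ℝ) 2)) = 1 := by
  rw [Real.volume_Icc]
  norm_num

theorem energy (hJM : T_JM) (hPLE : T_PLE) {a b : ℕ} {Lam₁ Lam₂ A : ℝ} {c₁ c₂ : ℝ → ℝ} {lam : ℝ}
    (hl : 0 < lam) (h1 : CT Lam₁ c₁) (h2 : CT Lam₂ c₂) {f : EE (a + b) → ℂ} (hf : BI A f) :
    ∫⁻ t in Icc (1 : ℝ) 2, ∫⁻ x in (univ : Set (EE (a + b))),
      ‖MM (mc a b c₁ c₂ lam t) f x‖ₑ ^ 2 ≤
    ((1 : ℝ≥0) : ℝ≥0∞) * ENNReal.ofReal 1 * ∫⁻ x, ‖f x‖ₑ ^ 2 := by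
  calc ∫⁻ t in Icc (1 : ℝ) 2, ∫⁻ x in (univ : Set (EE (a + b))),
        ‖MM (mc a b c₁ c₂ lam t) f x‖ₑ ^ 2
      ≤ ∫⁻ t in Icc (1 : ℝ) 2, ∫⁻ x, ‖f x‖ₑ ^ 2 := by
        refine lintegral_mono fun t => ?_
        rw [Measure.restrict_univ]
        exact mc_l2 hJM hPLE hl t h1 h2 hf
    _ = _ := by
        rw [setLIntegral_const, vol12]
        simp

/-- trivial bound, used for `lam ≤ 4096 L ^ 2` -/
theorem low_case (hSV : T_SV2) (hJM : T_JM) (hPLE : T_PLE) {a b : ℕ} {p : ℝ} (ha : 1 ≤ a)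
    (hb : 1 ≤ b) (hp : 2 < p) (hpp : ((a : ℝ) + b - 1) * (p / 2 - 1) ≤ 1) : ∃ C : ℝ≥0,
    ∀ (lam L A Lam₁ Lam₂ : ℝ) (c₁ c₂ : ℝ → ℝ) (E : Set (EE (a + b))) (f : EE (a + b) → ℂ),
    1 ≤ lam → lam ≤ 4096 * L ^ 2 → Real.sqrt lam ≤ Lam₁ → Lam₁ ≤ 4 * lam → Real.sqrt lam ≤ Lam₂ →
    Lam₂ ≤ 4 * lam → CT Lam₁ c₁ → CT Lam₂ c₂ → BI A f →
    ∫⁻ t in Icc (1 : ℝ) 2, ∫⁻ x in E, ‖MM (mc a b c₁ c₂ lam t) f x‖ₑ ^ p ≤
      C * ENNReal.ofReal (L ^ 2 * A ^ (p - 2)) * ∫⁻ x, ‖f x‖ₑ ^ 2 := by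
  obtain ⟨C, hC0, hC⟩ := hSV a b ha hb
  refine ⟨Real.toNNReal (C ^ (p - 2) * 4096), ?_⟩
  intro lam L A Lam₁ Lam₂ c₁ c₂ E f hl hL h1 h2 h3 h4 hc1 hc2 hf
  have hA : 0 ≤ A := (norm_nonneg _).trans (hf.2.2 0)
  obtain ⟨n, rfl⟩ : ∃ n, b = n + 1 := ⟨b - 1, by omega⟩
  set q := Real.sqrt lam with hq
  have hq1 : 1 ≤ q := Real.one_le_sqrt.2 hl
  have hq2 : lam = q ^ 2 := (Real.sq_sqrt (by linarith)).symm
  have hpp' : ((a + n : ℕ) : ℝ) * (p - 2) ≤ 2 := by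
    push_cast at hpp ⊢
    nlinarith
  have key := est (d := a + (n + 1)) (p := p) (C := C) (s := q ^ (a + n)) (A := A) (c := 1)
    (K := 4096) (L := L) (CE := 1) (Z := ∫⁻ x, ‖f x‖ₑ ^ 2) hp hC0 (by positivity) hA
    (by
      rw [mul_one]
      exact (powk hq1 hpp').trans (by rw [← hq2]; exact hL))
    (g := fun t => MM (mc a (n + 1) c₁ c₂ lam t) f)
    (by
      intro t ht x
      have := (hC lam Lam₁ Lam₂ t c₁ c₂ hl h1 h2 h3 h4 hc1 hc2 ht).1 A f hf x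
      rw [hq2, rpow_half (by linarith) a n] at this
      rw [hq2]
      exact this)
    (E := E) (E' := univ) (subset_univ _) (energy hJM hPLE (by linarith) hc1 hc2 hf)
  refine key.trans (le_of_eq ?_)
  simp [ENNReal.ofReal]

theorem cst_le {CE CT' : ℝ≥0} {X K K' : ℝ} (h1 : CE ≤ CT') (hX : 0 ≤ X) (h2 : K ≤ K')
    {W Z : ℝ≥0∞} :
    ((CE : ℝ≥0∞) * ENNReal.ofReal (X * K)) * W * Z ≤
      ((CT' * Real.toNNReal (X * K') : ℝ≥0) : ℝ≥0∞) * W * Z := by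
  rw [ENNReal.coe_mul]
  refine mul_le_mul' (mul_le_mul' (mul_le_mul' (ENNReal.coe_le_coe.2 h1) ?_) le_rfl) le_rfl
  exact ENNReal.ofReal_le_ofReal (mul_le_mul_of_nonneg_left h2 hX)

/-- the estimate when the second block carries the frequency -/
theorem K2 (hSV : T_SV2) (hTE : T_TE2) (hSW : T_SWF) (hJM : T_JM) (hPLE : T_PLE) {a b : ℕ} {p : ℝ}
    (ha : 2 ≤ a) (hb : 2 ≤ b) (hp : 2 < p) (hpp : ((a : ℝ) + b - 1) * (p / 2 - 1) ≤ 1) :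
    ∃ C : ℝ≥0, KC a b p C := by
  obtain ⟨C, hC0, hC⟩ := hSV a b (by omega) (by omega)
  obtain ⟨C1, hC1⟩ := te1' (a := a) (b := b) hJM hTE hSW ha (by omega)
  obtain ⟨C2, hC2⟩ := te2' (a := a) (b := b) hJM hTE (by omega) hb
  obtain ⟨n, rfl⟩ : ∃ n, b = n + 1 := ⟨b - 1, by omega⟩
  obtain ⟨a', rfl⟩ : ∃ a', a = a' + 1 := ⟨a - 1, by omega⟩
  have hKp : 0 ≤ (9 * 8 ^ n : ℝ) ^ (p - 2) := Real.rpow_nonneg (by positivity) _
  have hXp : 0 ≤ C ^ (p - 2) := Real.rpow_nonneg hC0 _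
  refine ⟨(C1 + C2 + 1) * Real.toNNReal (C ^ (p - 2) * ((9 * 8 ^ n : ℝ) ^ (p - 2) + 64)), ?_⟩
  intro lam L A Lam₁ Lam₂ c₁ c₂ i j f hL hLl h1 h2 h3 h4 h5 hi hj hj0 hi0 hi1 hc2 hf hi2 hj2
  have hA : 0 ≤ A := (norm_nonneg _).trans (hf.2.2 0)
  have hl : 1 ≤ lam := by nlinarith
  set q := Real.sqrt lam with hq
  have hq1 : 1 ≤ q := Real.one_le_sqrt.2 hl
  have hq0 : 0 < q := by linarith
  have hq2 : lam = q ^ 2 := (Real.sq_sqrt (by linarith)).symm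
  have hLq : L ≤ q := Real.le_sqrt_of_sq_le hLl
  have hqLam1 : q ≤ Lam₁ := le_trans (by nlinarith) h1
  have hqLam2 : q ≤ Lam₂ := le_trans (by nlinarith) h3
  have hLam1 : 0 < Lam₁ := by linarith
  have hLam2 : 0 < Lam₂ := by linarith
  have hpp' : (((a' + 1) + n : ℕ) : ℝ) * (p - 2) ≤ 2 := by
    push_cast at hpp ⊢
    nlinarith
  have hct1 : CT Lam₁ c₁ := by
    by_cases h : i = 0
    · exact Or.inl (hi0 h).2
    · exact Or.inr (hi1 h)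
  have hct2 : CT Lam₂ c₂ := Or.inr hc2
  have hsv := fun (t : ℝ) (ht : t ∈ Icc (1 : ℝ) 2) => hC lam Lam₁ Lam₂ t c₁ c₂ hl hqLam1 h2 hqLam2
    h4 hct1 hct2 ht
  have hhalf : lam ^ (((a' + 1 : ℕ) + ((n + 1 : ℕ) : ℝ) - 1) / 2) = q ^ (a' + 1 + n) := by
    rw [hq2, rpow_half hq0]
  rw [hhalf] at hsv
  simp only [Nat.add_sub_cancel] at hsv
  -- parameters
  set r := L / q with hr
  have hr0 : 0 < r := by positivity
  have hr1 : r ≤ 1 := by rw [hr, div_le_one hq0]; exact hLq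
  have hqr : q * r = L := by rw [hr]; field_simp
  have hd2 : L ^ 2 / Lam₂ ≤ 8 * r ^ 2 := by
    rw [div_le_iff₀ hLam2, hr, div_pow]
    rw [hq2] at h5
    have : L ^ 2 = 8 * (L ^ 2 / q ^ 2) * (q ^ 2 / 8) := by field_simp
    calc L ^ 2 = 8 * (L ^ 2 / q ^ 2) * (q ^ 2 / 8) := this
      _ ≤ 8 * (L ^ 2 / q ^ 2) * Lam₂ := by gcongr
  have hd1 : L ^ 2 / Lam₁ ≤ r := by
    rw [div_le_iff₀ hLam1]
    calc L ^ 2 = r * (L * q) := by rw [hr]; field_simp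
      _ ≤ r * Lam₁ := by gcongr
  have hrn : r ^ n ≤ 1 := pow_le_one₀ hr0.le hr1
  -- powers
  have hbig : ∀ (s y : ℝ), 1 ≤ y → 0 ≤ s → s ≤ 9 * 8 ^ n * y ^ (a' + 1 + n) →
      s ^ (p - 2) ≤ (9 * 8 ^ n : ℝ) ^ (p - 2) * y ^ 2 := by
    intro s y hy hs h
    calc s ^ (p - 2) ≤ (9 * 8 ^ n * y ^ (a' + 1 + n)) ^ (p - 2) :=
          Real.rpow_le_rpow hs h (by linarith)
      _ = (9 * 8 ^ n : ℝ) ^ (p - 2) * (y ^ (a' + 1 + n)) ^ (p - 2) :=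
          Real.mul_rpow (by positivity) (by positivity)
      _ ≤ (9 * 8 ^ n : ℝ) ^ (p - 2) * y ^ 2 := by
          gcongr
          exact powk hy hpp'
  have hj' : j = 1 ∨ j = 2 := by omega
  rcases hj' with rfl | rfl
  · -- output near the subspace
    have hsub : {x : EE (a' + 1 + (n + 1)) | Rg i L Lam₁ ‖p1 (a' + 1) (n + 1) x‖ ∧
        Rg 1 L Lam₂ ‖p2 (a' + 1) (n + 1) x‖} ⊆
        {x | ‖p2 (a' + 1) (n + 1) x‖ ≤ L ^ 2 / Lam₂} := by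
      intro x hx
      simp only [mem_ofPred_eq, Rg] at hx ⊢
      rw [le_div_iff₀ hLam2, mul_comm]
      exact hx.2 trivial
    have hen := hC2 lam Lam₁ Lam₂ (L ^ 2 / Lam₂) A c₁ c₂ f hl hLam2 h4 (by positivity) hct1 hc2 hf
    have hineq : (q ^ (a' + 1 + n)) ^ (p - 2) * (L ^ 2 / Lam₂ * lam / Lam₂) ≤ 64 * L ^ 2 := by
      have k1 := powk hq1 hpp'
      have k2 : L ^ 2 / Lam₂ * lam / Lam₂ ≤ 64 * L ^ 2 / q ^ 2 := by
        rw [hq2] at h5 ⊢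
        rw [div_mul_eq_mul_div, div_div, div_le_div_iff₀ (by positivity) (by positivity)]
        have k3 : q ^ 2 * q ^ 2 ≤ 64 * (Lam₂ * Lam₂) := by nlinarith
        calc L ^ 2 * q ^ 2 * q ^ 2 = L ^ 2 * (q ^ 2 * q ^ 2) := by ring
          _ ≤ L ^ 2 * (64 * (Lam₂ * Lam₂)) := by gcongr
          _ = _ := by ring
      calc (q ^ (a' + 1 + n)) ^ (p - 2) * (L ^ 2 / Lam₂ * lam / Lam₂)
          ≤ q ^ 2 * (64 * L ^ 2 / q ^ 2) := by
            apply mul_le_mul k1 k2 (by rw [hq2]; positivity) (by positivity)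
        _ = 64 * L ^ 2 := by field_simp
    refine (est hp hC0 (s := q ^ (a' + 1 + n)) (by positivity) hA hineq
      (g := fun t => MM (mc (a' + 1) (n + 1) c₁ c₂ lam t) f)
      (fun t ht x => (hsv t ht).1 A f hf x) hsub hen).trans ?_
    exact cst_le (by
      calc C2 ≤ C1 + C2 := le_add_self
        _ ≤ C1 + C2 + 1 := le_self_add) hXp (by linarith)
  · -- data near the subspace
    have hf2 : ∀ x, f x ≠ 0 → ‖p2 (a' + 1) (n + 1) x‖ ≤ 8 * r ^ 2 := by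
      intro x hx
      refine le_trans ?_ hd2
      rw [le_div_iff₀ hLam2, mul_comm]
      exact hj2 rfl x hx
    have hi' : i = 0 ∨ i = 1 ∨ i = 2 := by omega
    rcases hi' with rfl | rfl | rfl
    · -- low frequencies in the first block
      obtain ⟨hl1, -⟩ := hi0 rfl
      have hrat : Lam₁ / lam = r := by
        rw [hl1, hq2, hr]
        field_simp
      have hs : q ^ (a' + 1 + n) * (Lam₁ / lam) ^ (a' + 1) * (8 * r ^ 2) ^ n ≤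
          9 * 8 ^ n * L ^ (a' + 1 + n) := by
        rw [hrat, ← hqr]
        calc q ^ (a' + 1 + n) * r ^ (a' + 1) * (8 * r ^ 2) ^ n
            = 8 ^ n * (q * r) ^ (a' + 1 + n) * r ^ n := by ring
          _ ≤ 8 ^ n * (q * r) ^ (a' + 1 + n) * 1 := by gcongr
          _ ≤ 9 * 8 ^ n * (q * r) ^ (a' + 1 + n) := by
              have : 0 ≤ 8 ^ n * (q * r) ^ (a' + 1 + n) := by positivity
              nlinarith
      have hs0 : 0 ≤ q ^ (a' + 1 + n) * (Lam₁ / lam) ^ (a' + 1) * (8 * r ^ 2) ^ n := by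
        rw [hrat]; positivity
      have hineq : (q ^ (a' + 1 + n) * (Lam₁ / lam) ^ (a' + 1) * (8 * r ^ 2) ^ n) ^ (p - 2) * 1 ≤
          (9 * 8 ^ n : ℝ) ^ (p - 2) * L ^ 2 := by
        rw [mul_one]
        exact hbig _ L hL hs0 hs
      refine (est hp hC0 hs0 hA hineq
        (g := fun t => MM (mc (a' + 1) (n + 1) c₁ c₂ lam t) f)
        (fun t ht x => (hsv t ht).2.1 A (8 * r ^ 2) f hf (by positivity) hf2 x)
        (subset_univ _) (energy hJM hPLE (by linarith) hct1 hct2 hf)).trans ?_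
      exact cst_le (by
        calc (1 : ℝ≥0) ≤ C1 + C2 + 1 := le_add_self) hXp (by linarith)
    · -- output near the first subspace
      have hc1 := hi1 one_ne_zero
      set y := Lam₁ / q with hy
      have hyL : L ≤ y := by rw [hy, le_div_iff₀ hq0]; exact h1
      have hy1 : 1 ≤ y := hL.trans hyL
      have hy0 : 0 < y := by linarith
      have hrat : Lam₁ / lam = y / q := by
        rw [hy, hq2, div_div, sq]
      have hs : q ^ (a' + 1 + n) * (Lam₁ / lam) ^ (a' + 1) * (8 * r ^ 2) ^ n ≤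
          9 * 8 ^ n * y ^ (a' + 1 + n) := by
        rw [hrat]
        calc q ^ (a' + 1 + n) * (y / q) ^ (a' + 1) * (8 * r ^ 2) ^ n
            = 8 ^ n * (q * (y / q)) ^ (a' + 1) * (q * r) ^ n * r ^ n := by ring
          _ = 8 ^ n * y ^ (a' + 1) * L ^ n * r ^ n := by
              rw [hqr, mul_div_cancel₀ y hq0.ne']
          _ ≤ 8 ^ n * y ^ (a' + 1) * y ^ n * 1 := by gcongr
          _ = 8 ^ n * y ^ (a' + 1 + n) := by ring
          _ ≤ 9 * 8 ^ n * y ^ (a' + 1 + n) := by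
              have : 0 ≤ 8 ^ n * y ^ (a' + 1 + n) := by positivity
              nlinarith
      have hs0 : 0 ≤ q ^ (a' + 1 + n) * (Lam₁ / lam) ^ (a' + 1) * (8 * r ^ 2) ^ n := by
        rw [hrat]; positivity
      have hsub : {x : EE (a' + 1 + (n + 1)) | Rg 1 L Lam₁ ‖p1 (a' + 1) (n + 1) x‖ ∧
          Rg 2 L Lam₂ ‖p2 (a' + 1) (n + 1) x‖} ⊆
          {x | ‖p1 (a' + 1) (n + 1) x‖ ≤ L ^ 2 / Lam₁} := by
        intro x hx
        simp only [mem_ofPred_eq, Rg] at hx ⊢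
        rw [le_div_iff₀ hLam1, mul_comm]
        exact hx.1 trivial
      have hen := hC1 lam Lam₂ Lam₁ (L ^ 2 / Lam₁) A c₁ c₂ f hl hLam1 h2 (by positivity) hct2
        hc1 hf
      have hc : L ^ 2 / Lam₁ * lam / Lam₁ = L ^ 2 / y ^ 2 := by
        rw [hy, hq2]
        field_simp
      have hineq : (q ^ (a' + 1 + n) * (Lam₁ / lam) ^ (a' + 1) * (8 * r ^ 2) ^ n) ^ (p - 2) *
          (L ^ 2 / Lam₁ * lam / Lam₁) ≤ (9 * 8 ^ n : ℝ) ^ (p - 2) * L ^ 2 := by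
        rw [hc]
        calc _ ≤ (9 * 8 ^ n : ℝ) ^ (p - 2) * y ^ 2 * (L ^ 2 / y ^ 2) := by
              gcongr
              exact hbig _ y hy1 hs0 hs
          _ = _ := by field_simp
      refine (est hp hC0 hs0 hA hineq
        (g := fun t => MM (mc (a' + 1) (n + 1) c₁ c₂ lam t) f)
        (fun t ht x => (hsv t ht).2.1 A (8 * r ^ 2) f hf (by positivity) hf2 x) hsub hen).trans ?_
      exact cst_le (by
        calc C1 ≤ C1 + C2 := le_self_add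
          _ ≤ C1 + C2 + 1 := le_self_add) hXp (by linarith)
    · -- data near both subspaces
      have hf1 : ∀ x, f x ≠ 0 → ‖p1 (a' + 1) (n + 1) x‖ ≤ r := by
        intro x hx
        refine le_trans ?_ hd1
        rw [le_div_iff₀ hLam1, mul_comm]
        exact hi2 rfl x hx
      have hs : q ^ (a' + 1 + n) * r ^ a' * (8 * r ^ 2) ^ n * (r + 8 * r ^ 2) ≤
          9 * 8 ^ n * L ^ (a' + 1 + n) := by
        rw [← hqr]
        have h9 : r + 8 * r ^ 2 ≤ 9 * r := by nlinarith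
        calc q ^ (a' + 1 + n) * r ^ a' * (8 * r ^ 2) ^ n * (r + 8 * r ^ 2)
            ≤ q ^ (a' + 1 + n) * r ^ a' * (8 * r ^ 2) ^ n * (9 * r) := by gcongr
          _ = 9 * 8 ^ n * (q * r) ^ (a' + 1 + n) * r ^ n := by ring
          _ ≤ 9 * 8 ^ n * (q * r) ^ (a' + 1 + n) * 1 := by gcongr
          _ = _ := by ring
      have hs0 : 0 ≤ q ^ (a' + 1 + n) * r ^ a' * (8 * r ^ 2) ^ n * (r + 8 * r ^ 2) := by
        positivity
      have hineq : (q ^ (a' + 1 + n) * r ^ a' * (8 * r ^ 2) ^ n * (r + 8 * r ^ 2)) ^ (p - 2) *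
          1 ≤ (9 * 8 ^ n : ℝ) ^ (p - 2) * L ^ 2 := by
        rw [mul_one]
        exact hbig _ L hL hs0 hs
      refine (est hp hC0 hs0 hA hineq
        (g := fun t => MM (mc (a' + 1) (n + 1) c₁ c₂ lam t) f)
        (fun t ht x => (hsv t ht).2.2.1 A r (8 * r ^ 2) f hf hr0 (by positivity)
          (fun x hx => ⟨hf1 x hx, hf2 x hx⟩) x)
        (subset_univ _) (energy hJM hPLE (by linarith) hct1 hct2 hf)).trans ?_
      exact cst_le (by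
        calc (1 : ℝ≥0) ≤ C1 + C2 + 1 := le_add_self) hXp (by linarith)

theorem mc_zero (hJM : T_JM) {a b : ℕ} {Lam₁ Lam₂ lam t : ℝ} {c₁ c₂ : ℝ → ℝ} (hl : 0 < lam)
    (hLam1 : 0 < Lam₁) (hLam2 : 0 < Lam₂) (h1 : CT Lam₁ c₁) (h2 : CT Lam₂ c₂)
    (h3 : Lam₁ < lam / 8) (h4 : Lam₂ < lam / 8) (ξ : EE (a + b)) :
    mc a b c₁ c₂ lam t ξ = 0 := by
  by_contra hne
  unfold mc mT at hne
  have k0 : ((chi (‖ξ‖ / lam) : ℝ) : ℂ) ≠ 0 := right_ne_zero_of_mul (left_ne_zero_of_mul hne)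
  have k1 : chi (‖ξ‖ / lam) ≠ 0 := by
    intro h0
    apply k0
    rw [h0]
    simp
  have k2 : c₁ ‖p1 a b ξ‖ * c₂ ‖p2 a b ξ‖ ≠ 0 := by
    intro h0
    apply right_ne_zero_of_mul hne
    rw [h0]
    simp
  have m1 := (Pool.Agent.H14.LS.chi_supp k1).1
  rw [le_div_iff₀ hl] at m1
  have m2 := CT_supp hLam1 h1 (left_ne_zero_of_mul k2)
  have m3 := CT_supp hLam2 h2 (right_ne_zero_of_mul k2)
  have m4 := le_p12 hJM ξ
  linarith

theorem pf_tr (hSV : T_SV2) (hTE : T_TE2) (hSW : T_SWF) (hJM : T_JM) (hPLE : T_PLE) : T_TR := by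
  intro a b p ha hb hp hpp
  obtain ⟨C0, hC0⟩ := low_case hSV hJM hPLE (a := a) (b := b) (by omega) (by omega) hp hpp
  obtain ⟨C1, hC1⟩ := K2 hSV hTE hSW hJM hPLE ha hb hp hpp
  obtain ⟨C2, hC2⟩ := K2 hSV hTE hSW hJM hPLE hb ha hp (by linarith)
  refine ⟨C0 + C1 + C2, ?_⟩
  intro lam L A Lam₁ Lam₂ c₁ c₂ i j f hL hLl h1 h2 h3 h4 hi hj hi0 hi1 hj0 hj1 hf hi2 hj2
  have hl : 1 ≤ lam := by nlinarith
  have hl0 : 0 < lam := by linarith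
  have hq1 : 1 ≤ Real.sqrt lam := Real.one_le_sqrt.2 hl
  have hqLam1 : Real.sqrt lam ≤ Lam₁ := le_trans (by nlinarith) h1
  have hqLam2 : Real.sqrt lam ≤ Lam₂ := le_trans (by nlinarith) h3
  have hLam1 : 0 < Lam₁ := by linarith
  have hLam2 : 0 < Lam₂ := by linarith
  have hct1 : CT Lam₁ c₁ := by
    by_cases h : i = 0
    · exact Or.inl (hi0 h).2
    · exact Or.inr (hi1 h)
  have hct2 : CT Lam₂ c₂ := by
    by_cases h : j = 0
    · exact Or.inl (hj0 h).2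
    · exact Or.inr (hj1 h)
  by_cases hlow : lam ≤ 4096 * L ^ 2
  · refine (hC0 lam L A Lam₁ Lam₂ c₁ c₂ _ f hl hlow hqLam1 h2 hqLam2 h4 hct1 hct2 hf).trans ?_
    gcongr
    calc C0 ≤ C0 + C1 := le_self_add
      _ ≤ C0 + C1 + C2 := le_self_add
  push Not at hlow
  -- `L √lam < lam / 64`
  have hsmall : L * Real.sqrt lam < lam / 8 := by
    have k1 : 64 * L < Real.sqrt lam := by
      rw [Real.lt_sqrt (by linarith)]
      nlinarith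
    have k2 : Real.sqrt lam * Real.sqrt lam = lam := Real.mul_self_sqrt hl0.le
    nlinarith
  by_cases hb2 : lam / 8 ≤ Lam₂
  · have hj0' : j ≠ 0 := by
      intro h0
      have := (hj0 h0).1
      linarith
    refine (hC1 lam L A Lam₁ Lam₂ c₁ c₂ i j f hL hLl h1 h2 h3 h4 hb2 hi hj hj0' hi0 hi1
      (hj1 hj0') hf hi2 hj2).trans ?_
    gcongr
    calc C1 ≤ C0 + C1 := le_add_self
      _ ≤ C0 + C1 + C2 := le_self_add
  push Not at hb2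
  by_cases hb1 : lam / 8 ≤ Lam₁
  · have hi0' : i ≠ 0 := by
      intro h0
      have := (hi0 h0).1
      linarith
    have sf := fun x : EE (b + a) => sw_facts (a := b) (b := a) hJM x
    have key := hC2 lam L A Lam₂ Lam₁ c₂ c₁ j i (fun y => f (sw b a y)) hL hLl h3 h4 h1 h2 hb1
      hj hi hi0' hj0 hj1 (hi1 hi0') (BI_sw hJM hf)
      (fun h x hx => by
        have := hj2 h (sw b a x) hx
        rwa [(sf x).2.2.2] at this)
      (fun h x hx => by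
        have := hi2 h (sw b a x) hx
        rwa [(sf x).2.2.1] at this)
    have e1 : ∀ t : ℝ, ∫⁻ x in {x : EE (a + b) | Rg i L Lam₁ ‖p1 a b x‖ ∧
        Rg j L Lam₂ ‖p2 a b x‖}, ‖MM (mc a b c₁ c₂ lam t) f x‖ₑ ^ p =
        ∫⁻ x in {x : EE (b + a) | Rg j L Lam₂ ‖p1 b a x‖ ∧ Rg i L Lam₁ ‖p2 b a x‖},
        ‖MM (mc b a c₂ c₁ lam t) (fun y => f (sw b a y)) x‖ₑ ^ p := by
      intro t
      rw [MM_sw hJM hSW (by omega) (by omega) hf c₁ c₂ lam t {x : EE (a + b) |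
        Rg i L Lam₁ ‖p1 a b x‖ ∧ Rg j L Lam₂ ‖p2 a b x‖} (fun z => ‖z‖ₑ ^ p)]
      have hs : {y : EE (b + a) | sw b a y ∈ {x : EE (a + b) | Rg i L Lam₁ ‖p1 a b x‖ ∧
          Rg j L Lam₂ ‖p2 a b x‖}} =
          {x : EE (b + a) | Rg j L Lam₂ ‖p1 b a x‖ ∧ Rg i L Lam₁ ‖p2 b a x‖} := by
        ext y
        simp only [mem_ofPred_eq, (sf y).2.2.1, (sf y).2.2.2]
        exact and_comm
      rw [hs]
    simp only [e1]
    rw [lint_sw' (a := a) (b := b) hJM (fun x => ‖f x‖ₑ ^ 2)]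
    refine key.trans ?_
    gcongr
    exact le_add_self
  push Not at hb1
  have hz : ∀ (t : ℝ) (x : EE (a + b)), MM (mc a b c₁ c₂ lam t) f x = 0 := by
    intro t x
    unfold MM
    simp only [mc_zero hJM hl0 hLam1 hLam2 hct1 hct2 hb1 hb2]
    simp
  simp only [hz, enorm_zero, ENNReal.zero_rpow_of_pos (show (0 : ℝ) < p by linarith)]
  simp

end Pool.Agent.H93.BR
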