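import Pool.Agent.H84.B2.Targets
import Pool.Agent.H14.LS.Main2

/-! # TR, part 1: cutoffs, exchange of the blocks, elementary inequalities -/

set_option autoImplicit false

namespace Pool.Agent.H93.BR

open MeasureTheory Set FourierTransform
open Pool.Agent.H83.LS Pool.Agent.H93.AR Pool.Agent.H54.LS Pool.Agent.H83.AR
open Pool.Agent.H84.BR Pool.Agent.H84.B2
open scoped ENNReal NNReal SchwartzMap

theorem CT_meas {Lam : ℝ} {c : ℝ → ℝ} (h : CT Lam c) : Measurable c := by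
  rcases h with h | h
  · have : c = fun s => eta0 (s / Lam) := funext h
    rw [this]
    exact Pool.Agent.H14.LS.eta0_smooth.continuous.measurable.comp (measurable_id.div_const _)
  · have : c = fun s => chi (s / Lam) := funext h
    rw [this]
    exact Pool.Agent.H14.LS.chi_smooth.continuous.measurable.comp (measurable_id.div_const _)

theorem CT_le {Lam : ℝ} {c : ℝ → ℝ} (h : CT Lam c) (s : ℝ) : |c s| ≤ 1 := by
  rcases h with h | h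
  · rw [h, abs_of_nonneg (Pool.Agent.H14.LS.eta0_nonneg _)]
    exact Pool.Agent.H14.LS.eta0_le_one _
  · rw [h]
    exact Pool.Agent.H14.LS.chi_abs_le _

theorem CT_supp {Lam : ℝ} {c : ℝ → ℝ} (hL : 0 < Lam) (h : CT Lam c) {s : ℝ} (hs : c s ≠ 0) :
    s ≤ 2 * Lam := by
  rcases h with h | h
  · rw [h] at hs
    by_contra hc
    push Not at hc
    apply hs
    apply Pool.Agent.H14.LS.eta0_zero
    rw [le_div_iff₀ hL]
    exact hc.le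
  · rw [h] at hs
    have := (Pool.Agent.H14.LS.chi_supp hs).2
    rw [div_le_iff₀ hL] at this
    exact this

/-- the part of `mc` without the wave factor -/
noncomputable def mm (a b : ℕ) (c₁ c₂ : ℝ → ℝ) (lam : ℝ) (ξ : EE (a + b)) : ℂ :=
  ((chi (‖ξ‖ / lam) * (c₁ ‖p1 a b ξ‖ * c₂ ‖p2 a b ξ‖) : ℝ) : ℂ)

theorem mc_eq (a b : ℕ) (c₁ c₂ : ℝ → ℝ) (lam t : ℝ) (ξ : EE (a + b)) :
    mc a b c₁ c₂ lam t ξ = e (t * ‖ξ‖) * mm a b c₁ c₂ lam ξ := by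
  unfold mc mT mm
  push_cast
  ring

section
variable {a b : ℕ} (hJM : T_JM)
include hJM

theorem mm_meas {c₁ c₂ : ℝ → ℝ} (lam : ℝ) (h1 : Measurable c₁) (h2 : Measurable c₂) :
    Measurable (mm a b c₁ c₂ lam) := by
  have hp1 := (hJM a b).2.2.2.2.2.1
  have hp2 := (hJM a b).2.2.2.2.2.2.1
  unfold mm
  apply Complex.measurable_ofReal.comp
  apply Measurable.mul
  · exact Pool.Agent.H14.LS.chi_smooth.continuous.measurable.comp (measurable_norm.div_const _)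
  · exact (h1.comp hp1.measurable.norm).mul (h2.comp hp2.measurable.norm)

theorem mc_meas {c₁ c₂ : ℝ → ℝ} (lam t : ℝ) (h1 : Measurable c₁) (h2 : Measurable c₂) :
    Measurable (mc a b c₁ c₂ lam t) := by
  have : mc a b c₁ c₂ lam t = fun ξ => e (t * ‖ξ‖) * mm a b c₁ c₂ lam ξ :=
    funext fun ξ => mc_eq a b c₁ c₂ lam t ξ
  rw [this]
  refine Measurable.mul ?_ (mm_meas hJM lam h1 h2)
  exact measurable_e.comp (measurable_norm.const_mul t)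

theorem p_le1 (x : EE (a + b)) : ‖p1 a b x‖ ≤ ‖x‖ := by
  have h := (hJM a b).2.2.2.1 x
  have h0 := sq_nonneg ‖p2 a b x‖
  rw [← pow_le_pow_iff_left₀ (norm_nonneg _) (norm_nonneg _) two_ne_zero]
  linarith

theorem p_le2 (x : EE (a + b)) : ‖p2 a b x‖ ≤ ‖x‖ := by
  have h := (hJM a b).2.2.2.1 x
  have h0 := sq_nonneg ‖p1 a b x‖
  rw [← pow_le_pow_iff_left₀ (norm_nonneg _) (norm_nonneg _) two_ne_zero]
  linarith

theorem le_p12 (x : EE (a + b)) : ‖x‖ ≤ ‖p1 a b x‖ + ‖p2 a b x‖ := by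
  have h := (hJM a b).2.2.2.1 x
  have h0 := norm_nonneg (p1 a b x)
  have h1 := norm_nonneg (p2 a b x)
  rw [← pow_le_pow_iff_left₀ (norm_nonneg _) (by positivity) two_ne_zero]
  nlinarith

theorem mm_le {Lam₁ Lam₂ : ℝ} {c₁ c₂ : ℝ → ℝ} (lam : ℝ) (h1 : CT Lam₁ c₁) (h2 : CT Lam₂ c₂)
    (ξ : EE (a + b)) : ‖mm a b c₁ c₂ lam ξ‖ ≤ 1 := by
  unfold mm
  rw [Complex.norm_real, Real.norm_eq_abs, abs_mul, abs_mul]
  have a1 := CT_le h1 ‖p1 a b ξ‖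
  have a2 := CT_le h2 ‖p2 a b ξ‖
  have a3 := Pool.Agent.H14.LS.chi_abs_le (‖ξ‖ / lam)
  exact mul_le_one₀ a3 (by positivity) (mul_le_one₀ a1 (abs_nonneg _) a2)

theorem mc_le {Lam₁ Lam₂ : ℝ} {c₁ c₂ : ℝ → ℝ} (lam t : ℝ) (h1 : CT Lam₁ c₁) (h2 : CT Lam₂ c₂)
    (ξ : EE (a + b)) : ‖mc a b c₁ c₂ lam t ξ‖ ≤ ‖mT lam t ξ‖ := by
  unfold mc
  rw [norm_mul, Complex.norm_real, Real.norm_eq_abs, abs_mul]
  have a1 := CT_le h1 ‖p1 a b ξ‖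
  have a2 := CT_le h2 ‖p2 a b ξ‖
  exact mul_le_of_le_one_right (norm_nonneg _) (mul_le_one₀ a1 (abs_nonneg _) a2)

theorem mc_int {Lam₁ Lam₂ : ℝ} {c₁ c₂ : ℝ → ℝ} {lam : ℝ} (hl : 0 < lam) (t : ℝ)
    (h1 : CT Lam₁ c₁) (h2 : CT Lam₂ c₂) : Integrable (mc a b c₁ c₂ lam t) :=
  (Pool.Agent.H14.LS.mT_int hl t).norm.mono'
    (mc_meas hJM lam t (CT_meas h1) (CT_meas h2)).aestronglyMeasurable
    (Filter.Eventually.of_forall fun ξ => mc_le hJM lam t h1 h2 ξ)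

/-- the `L²` bound -/
theorem mc_l2 (hPLE : T_PLE) {Lam₁ Lam₂ A : ℝ} {c₁ c₂ : ℝ → ℝ} {lam : ℝ} (hl : 0 < lam) (t : ℝ)
    (h1 : CT Lam₁ c₁) (h2 : CT Lam₂ c₂) {f : EE (a + b) → ℂ} (hf : BI A f) :
    ∫⁻ x, ‖MM (mc a b c₁ c₂ lam t) f x‖ₑ ^ 2 ≤ ∫⁻ x, ‖f x‖ₑ ^ 2 :=
  (hPLE (a + b) (mc a b c₁ c₂ lam t) f (mc_meas hJM lam t (CT_meas h1) (CT_meas h2))
    (fun ξ => (mc_le hJM lam t h1 h2 ξ).trans (Pool.Agent.H14.LS.mT_norm lam t ξ))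
    (mc_int hJM hl t h1 h2) hf.2.1 ⟨A, hf.2.2⟩ hf.1).2

theorem swM_emb : MeasurableEmbedding (sw a b) := by
  let h : EE (a + b) ≃ₜ EE (b + a) :=
    { toFun := sw a b
      invFun := sw b a
      left_inv := fun x => ((hJM a b).2.2.2.2.2.2.2.2.2.2.2.2.1 x).1
      right_inv := fun x => ((hJM b a).2.2.2.2.2.2.2.2.2.2.2.2.1 x).1
      continuous_toFun := (hJM a b).2.2.2.2.2.2.2.1
      continuous_invFun := (hJM b a).2.2.2.2.2.2.2.1 }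
  exact h.measurableEmbedding

theorem swM_mp : MeasurePreserving (sw a b) volume volume :=
  (hJM a b).2.2.2.2.2.2.2.2.2.2.2.1

theorem sw_facts (x : EE (a + b)) : sw b a (sw a b x) = x ∧ ‖sw a b x‖ = ‖x‖ ∧
    p1 b a (sw a b x) = p2 a b x ∧ p2 b a (sw a b x) = p1 a b x :=
  (hJM a b).2.2.2.2.2.2.2.2.2.2.2.2.1 x

theorem BI_sw {A : ℝ} {f : EE (a + b) → ℂ} (hf : BI A f) : BI A (fun y => f (sw b a y)) :=
  ⟨hf.1.comp (hJM b a).2.2.2.2.2.2.2.1.measurable,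
    (swM_mp (a := b) (b := a) hJM).integrable_comp_of_integrable hf.2.1, fun y => hf.2.2 _⟩

theorem mm_sw (c₁ c₂ : ℝ → ℝ) (lam : ℝ) (ξ : EE (b + a)) :
    mm a b c₁ c₂ lam (sw b a ξ) = mm b a c₂ c₁ lam ξ := by
  obtain ⟨-, h2, h3, h4⟩ := sw_facts (a := b) (b := a) hJM ξ
  unfold mm
  rw [h2, h3, h4, mul_comm (c₁ _)]

theorem mc_sw (c₁ c₂ : ℝ → ℝ) (lam t : ℝ) (ξ : EE (b + a)) :
    mc a b c₁ c₂ lam t (sw b a ξ) = mc b a c₂ c₁ lam t ξ := by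
  rw [mc_eq, mc_eq, mm_sw hJM, (sw_facts (a := b) (b := a) hJM ξ).2.1]

theorem lint_sw (s : Set (EE (a + b))) (F : EE (a + b) → ℝ≥0∞) :
    ∫⁻ x in s, F x = ∫⁻ y in {y : EE (b + a) | sw b a y ∈ s}, F (sw b a y) :=
  ((swM_mp (a := b) (b := a) hJM).setLIntegral_comp_preimage_emb
    (swM_emb (a := b) (b := a) hJM) F s).symm

theorem lint_sw' (F : EE (a + b) → ℝ≥0∞) : ∫⁻ x, F x = ∫⁻ y, F (sw b a y) :=
  ((swM_mp (a := b) (b := a) hJM).lintegral_comp_emb (swM_emb (a := b) (b := a) hJM) F).symm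

/-- exchange of the blocks in an integral of `MM` -/
theorem MM_sw (hSW : T_SWF) (ha : 1 ≤ a) (hb : 1 ≤ b) {A : ℝ} {f : EE (a + b) → ℂ} (hf : BI A f)
    (c₁ c₂ : ℝ → ℝ) (lam t : ℝ) (s : Set (EE (a + b))) (F : ℂ → ℝ≥0∞) :
    ∫⁻ x in s, F (MM (mc a b c₁ c₂ lam t) f x) = ∫⁻ y in {y : EE (b + a) | sw b a y ∈ s},
      F (MM (mc b a c₂ c₁ lam t) (fun y => f (sw b a y)) y) := by
  rw [lint_sw hJM]
  have h := (hSW a b f ha hb hf.1 hf.2.1).2.1 (mc a b c₁ c₂ lam t)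
  have h2 : (fun ξ => mc a b c₁ c₂ lam t (sw b a ξ)) = mc b a c₂ c₁ lam t :=
    funext fun ξ => mc_sw hJM c₁ c₂ lam t ξ
  rw [h2] at h
  simp only [h]

/-- energy near the second coordinate subspace -/
theorem te2' (hTE : T_TE2) (ha : 1 ≤ a) (hb : 2 ≤ b) : ∃ C : ℝ≥0,
    ∀ (lam Lam₁ Lam δ A : ℝ) (c₁ c₂ : ℝ → ℝ) (f : EE (a + b) → ℂ), 1 ≤ lam → 0 < Lam →
    Lam ≤ 4 * lam → 0 < δ → CT Lam₁ c₁ → (∀ s, c₂ s = chi (s / Lam)) → BI A f →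
    ∫⁻ t in Icc (1 : ℝ) 2, ∫⁻ x in {x : EE (a + b) | ‖p2 a b x‖ ≤ δ},
      ‖MM (mc a b c₁ c₂ lam t) f x‖ₑ ^ 2 ≤
    C * ENNReal.ofReal (δ * lam / Lam) * ∫⁻ x, ‖f x‖ₑ ^ 2 := by
  obtain ⟨C, hC⟩ := hTE a b ha hb
  refine ⟨C, ?_⟩
  intro lam Lam₁ Lam δ A c₁ c₂ f hl hL hL4 hd h1 h2 hf
  have h := hC lam Lam δ A (mm a b c₁ c₂ lam) f hl hL hL4 hd
    (mm_meas hJM lam (CT_meas h1) (CT_meas (Or.inr h2))) (mm_le hJM lam h1 (Or.inr h2)) ?_ hf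
  · have h3 : ∀ t : ℝ, (fun ξ => e (t * ‖ξ‖) * mm a b c₁ c₂ lam ξ) = mc a b c₁ c₂ lam t :=
      fun t => funext fun ξ => (mc_eq a b c₁ c₂ lam t ξ).symm
    simp only [h3] at h
    exact h
  · intro ξ hξ
    unfold mm at hξ
    have hξ' : chi (‖ξ‖ / lam) * (c₁ ‖p1 a b ξ‖ * c₂ ‖p2 a b ξ‖) ≠ 0 := by
      intro h0
      apply hξ
      rw [h0]
      simp
    have k1 : chi (‖ξ‖ / lam) ≠ 0 := left_ne_zero_of_mul hξ'
    have k2 : c₂ ‖p2 a b ξ‖ ≠ 0 := right_ne_zero_of_mul (right_ne_zero_of_mul hξ')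
    rw [h2] at k2
    have hl0 : 0 < lam := by linarith
    obtain ⟨m1, m2⟩ := Pool.Agent.H14.LS.chi_supp k1
    obtain ⟨m3, m4⟩ := Pool.Agent.H14.LS.chi_supp k2
    rw [le_div_iff₀ hl0] at m1
    rw [div_le_iff₀ hl0] at m2
    rw [le_div_iff₀ hL] at m3
    rw [div_le_iff₀ hL] at m4
    exact ⟨by linarith, m2, by linarith, m4⟩

/-- energy near the first coordinate subspace -/
theorem te1' (hTE : T_TE2) (hSW : T_SWF) (ha : 2 ≤ a) (hb : 1 ≤ b) : ∃ C : ℝ≥0,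
    ∀ (lam Lam₂ Lam δ A : ℝ) (c₁ c₂ : ℝ → ℝ) (f : EE (a + b) → ℂ), 1 ≤ lam → 0 < Lam →
    Lam ≤ 4 * lam → 0 < δ → CT Lam₂ c₂ → (∀ s, c₁ s = chi (s / Lam)) → BI A f →
    ∫⁻ t in Icc (1 : ℝ) 2, ∫⁻ x in {x : EE (a + b) | ‖p1 a b x‖ ≤ δ},
      ‖MM (mc a b c₁ c₂ lam t) f x‖ₑ ^ 2 ≤
    C * ENNReal.ofReal (δ * lam / Lam) * ∫⁻ x, ‖f x‖ₑ ^ 2 := by
  obtain ⟨C, hC⟩ := te2' (a := b) (b := a) hJM hTE hb ha
  refine ⟨C, ?_⟩
  intro lam Lam₂ Lam δ A c₁ c₂ f hl hL hL4 hd h2 h1 hf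
  have h := hC lam Lam₂ Lam δ A c₂ c₁ (fun y => f (sw b a y)) hl hL hL4 hd h2 h1 (BI_sw hJM hf)
  have e1 : ∀ t : ℝ, ∫⁻ x in {x : EE (a + b) | ‖p1 a b x‖ ≤ δ},
      ‖MM (mc a b c₁ c₂ lam t) f x‖ₑ ^ 2 = ∫⁻ y in {y : EE (b + a) | ‖p2 b a y‖ ≤ δ},
      ‖MM (mc b a c₂ c₁ lam t) (fun y => f (sw b a y)) y‖ₑ ^ 2 := by
    intro t
    have := MM_sw hJM hSW (by omega) hb hf c₁ c₂ lam t {x : EE (a + b) | ‖p1 a b x‖ ≤ δ}
      (fun z => ‖z‖ₑ ^ 2)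
    rw [this]
    have hs : {y : EE (b + a) | sw b a y ∈ {x : EE (a + b) | ‖p1 a b x‖ ≤ δ}} =
        {y : EE (b + a) | ‖p2 b a y‖ ≤ δ} := by
      ext y
      simp only [mem_setOf_eq, (sw_facts (a := b) (b := a) hJM y).2.2.1]
    rw [hs]
  simp only [e1]
  refine h.trans (le_of_eq ?_)
  rw [lint_sw' (a := a) (b := b) hJM (fun x => ‖f x‖ₑ ^ 2)]

end

/-! ### elementary inequalities -/

theorem powk {q : ℝ} (hq : 1 ≤ q) {d : ℕ} {r : ℝ} (hr : (d : ℝ) * r ≤ 2) : (q ^ d) ^ r ≤ q ^ 2 := by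
  rw [← Real.rpow_natCast, ← Real.rpow_mul (by linarith), ← Real.rpow_natCast q 2]
  exact Real.rpow_le_rpow_of_exponent_le hq (by push_cast; linarith)

theorem combine {p C s A c K L : ℝ} (hC : 0 ≤ C) (hs : 0 ≤ s) (hA : 0 ≤ A)
    (h : s ^ (p - 2) * c ≤ K * L ^ 2) :
    ENNReal.ofReal ((C * s * A) ^ (p - 2)) * ENNReal.ofReal c ≤
      ENNReal.ofReal (C ^ (p - 2) * K) * ENNReal.ofReal (L ^ 2 * A ^ (p - 2)) := by
  have hC' : 0 ≤ C ^ (p - 2) := Real.rpow_nonneg hC _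
  have hA' : 0 ≤ A ^ (p - 2) := Real.rpow_nonneg hA _
  rw [← ENNReal.ofReal_mul (by positivity)]
  by_cases hK : 0 ≤ K
  · rw [← ENNReal.ofReal_mul (by positivity)]
    apply ENNReal.ofReal_le_ofReal
    rw [Real.mul_rpow (by positivity) hA, Real.mul_rpow hC hs]
    calc C ^ (p - 2) * s ^ (p - 2) * A ^ (p - 2) * c
        = (C ^ (p - 2) * A ^ (p - 2)) * (s ^ (p - 2) * c) := by ring
      _ ≤ (C ^ (p - 2) * A ^ (p - 2)) * (K * L ^ 2) := by gcongr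
      _ = C ^ (p - 2) * K * (L ^ 2 * A ^ (p - 2)) := by ring
  · push Not at hK
    have h1 : (C * s * A) ^ (p - 2) * c ≤ 0 := by
      rw [Real.mul_rpow (by positivity) hA, Real.mul_rpow hC hs]
      have h2 : s ^ (p - 2) * c ≤ 0 := h.trans (mul_nonpos_of_nonpos_of_nonneg hK.le (by positivity))
      calc C ^ (p - 2) * s ^ (p - 2) * A ^ (p - 2) * c
          = (C ^ (p - 2) * A ^ (p - 2)) * (s ^ (p - 2) * c) := by ring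
        _ ≤ 0 := mul_nonpos_of_nonneg_of_nonpos (by positivity) h2
    rw [ENNReal.ofReal_of_nonpos h1]
    exact zero_le

theorem pow_split_set {d : ℕ} {p D : ℝ} (hp : 2 < p) (hD : 0 ≤ D) {g : EE d → ℂ}
    (hg : ∀ x, ‖g x‖ ≤ D) (E : Set (EE d)) :
    ∫⁻ x in E, ‖g x‖ₑ ^ p ≤ ENNReal.ofReal (D ^ (p - 2)) * ∫⁻ x in E, ‖g x‖ₑ ^ 2 := by
  rw [← lintegral_const_mul' _ _ ENNReal.ofReal_ne_top]
  refine lintegral_mono fun x => ?_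
  have h1 : ‖g x‖ₑ ^ p = ‖g x‖ₑ ^ (p - 2) * ‖g x‖ₑ ^ 2 := by
    rw [← ENNReal.rpow_natCast, ← ENNReal.rpow_add_of_nonneg _ _ (by linarith) (by norm_num)]
    congr 1; push_cast; ring
  rw [h1]
  gcongr
  rw [← ENNReal.ofReal_rpow_of_nonneg hD (by linarith)]
  refine ENNReal.rpow_le_rpow ?_ (by linarith)
  rw [← ofReal_norm]
  exact ENNReal.ofReal_le_ofReal (hg x)

theorem time_split {d : ℕ} {p D : ℝ} (hp : 2 < p) (hD : 0 ≤ D) {g : ℝ → EE d → ℂ}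
    (hg : ∀ t ∈ Icc (1 : ℝ) 2, ∀ x, ‖g t x‖ ≤ D) (E : Set (EE d)) {E' : Set (EE d)}
    (hE : E ⊆ E') :
    ∫⁻ t in Icc (1 : ℝ) 2, ∫⁻ x in E, ‖g t x‖ₑ ^ p ≤
      ENNReal.ofReal (D ^ (p - 2)) * ∫⁻ t in Icc (1 : ℝ) 2, ∫⁻ x in E', ‖g t x‖ₑ ^ 2 := by
  rw [← lintegral_const_mul' _ _ ENNReal.ofReal_ne_top]
  refine setLIntegral_mono' measurableSet_Icc fun t ht => ?_
  refine (pow_split_set hp hD (hg t ht) E).trans ?_
  gcongr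

/-- the estimate from a sup bound and an energy bound -/
theorem est {d : ℕ} {p C s A c K L : ℝ} {CE : ℝ≥0} {Z : ℝ≥0∞} (hp : 2 < p) (hC : 0 ≤ C)
    (hs : 0 ≤ s) (hA : 0 ≤ A) (h : s ^ (p - 2) * c ≤ K * L ^ 2) {g : ℝ → EE d → ℂ}
    (hg : ∀ t ∈ Icc (1 : ℝ) 2, ∀ x, ‖g t x‖ ≤ C * s * A) {E E' : Set (EE d)} (hE : E ⊆ E')
    (hen : ∫⁻ t in Icc (1 : ℝ) 2, ∫⁻ x in E', ‖g t x‖ₑ ^ 2 ≤ CE * ENNReal.ofReal c * Z) :
    ∫⁻ t in Icc (1 : ℝ) 2, ∫⁻ x in E, ‖g t x‖ₑ ^ p ≤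
      (CE * ENNReal.ofReal (C ^ (p - 2) * K)) * ENNReal.ofReal (L ^ 2 * A ^ (p - 2)) * Z := by
  refine (time_split hp (by positivity) hg E hE).trans ?_
  calc ENNReal.ofReal ((C * s * A) ^ (p - 2)) *
        ∫⁻ t in Icc (1 : ℝ) 2, ∫⁻ x in E', ‖g t x‖ₑ ^ 2
      ≤ ENNReal.ofReal ((C * s * A) ^ (p - 2)) * (CE * ENNReal.ofReal c * Z) := by gcongr
    _ = CE * (ENNReal.ofReal ((C * s * A) ^ (p - 2)) * ENNReal.ofReal c) * Z := by ring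
    _ ≤ CE * (ENNReal.ofReal (C ^ (p - 2) * K) * ENNReal.ofReal (L ^ 2 * A ^ (p - 2))) * Z := by
        exact mul_le_mul' (mul_le_mul' le_rfl (combine hC hs hA h)) le_rfl
    _ = _ := by ring

end Pool.Agent.H93.BR
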